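import Pool.Agent.Y609.WS.Fin2
import Pool.Agent.Y609.WS.Sob

/-!
# Weakly sequentially hypercyclic operators which are not hypercyclic: on which spaces, and in how
# many steps?

Real or complex scalars. An operator `T` is weakly 1-sequentially hypercyclic if for some `x` every
vector is the weak limit of a sequence in the orbit of `x`. Let `X` be a separable Banach space.
There are a bounded operator on `X` which is weakly 1-sequentially hypercyclic but not hypercyclic,
and a bounded operator on `X` which is weakly sequentially hypercyclic but not weakly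
1-sequentially hypercyclic (so not hypercyclic either), in the following cases:

* `X` contains a (closed) subspace isomorphic to `c_0`;
* `X` has a complemented subspace isomorphic to `ℓ_p` for some `1 < p < ∞`; for instance `X` may be
  the infinite dimensional separable Hilbert space, or `ℓ_p`, or `L_p (0, 1)`;
* `X` has a complemented subspace isomorphic to the `ℓ_p`-sum, `1 ≤ p < ∞`, or to the `c_0`-sum of
  infinitely many copies of a Banach space `H` without the Schur property (there is a weakly
  convergent sequence in `H` which does not converge in norm); for instance `X = L_1 (0, 1)`.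

For the second operator, the weak limits of the sequences in the orbit of some vector are norm
dense; they are not all of `X` for any vector. So one step of adding weak limits of sequences is not
enough, and a second step (with norm limits only) is enough.

If `X` has the Schur property then there is no such operator on `X`. In particular, if `X` is
isomorphic to the `ℓ_p`-sum or the `c_0`-sum of infinitely many copies of itself (this is so for
`ℓ_p`, `c_0`, `L_p (0, 1)` and `C [0, 1]`) then there is such an operator on `X` if and only if `X`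
does not have the Schur property.

Proof. In the first case there is a complemented subspace isomorphic to `c_0` by Sobczyk's theorem
(proved in `Pool.Agent.Y609.WS.Sob`), and in the first two cases there is one isomorphic to a sum as
in the third case. So let `X = Z ⊕ H ⊕ H ⊕ …`. The operators are weighted backward shifts: they map
`(z, x 0, x 1, …)` to `(R (x 0), w 0 (x 1), w 1 (x 2), …)`, where `R : H → Z` is a compact operator
with dense range and the `w n` are invertible operators on `H`.

The first operator: there are bounded functionals `f k` and a bounded weakly null sequence `z k` in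
`H`, and a vector `y` in `H`, with `f k (z k) = 1` and `f k y = 1` for all `k`. The product
`w 0 ⋯ w (n - 1)`, for `n` in the block from `3 ^ k` to `3 ^ (k + 1)`, fixes `z k` and multiplies the
vectors of the kernel of `f k` with `L ^ m`, where `m` is the distance of `n` from the ends of the
block, and `L` is large. So the value of `f k` at the coordinate `0` of the `n`-th vector of the
orbit of `x` is at most a constant times the norm of `x`, for the `k` belonging to `n`: the multiple
`C y` at the coordinate `0` has a positive distance from the orbit if `C` is large. At the time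
`n = 2 * 3 ^ k` we can reach every vector of a dense set, up to multiples of `z k` in the
coordinates, which are bounded and weakly null.

The second operator: the rank one projections onto the spans of the `z k` are replaced by rank two
projections `Q k`. The blocks have types `m`, and `Q k v = g (v) a + (ε + θ h k) (v) y` for a block
`k` of type `m`, where `θ = 1 / (m + 1)`, `h k = f k - f 0`, `ε = f 0`, and `g` depends on the type
only; `g = g m` tends to `0` pointwise as `m → ∞`, and `g m (a m) = 1` with bounded vectors `a m`. If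
a sequence in an orbit converges weakly to a multiple of a vector `u` at the coordinate `0` then
either it is in blocks of one type `m` infinitely often, and `g m (u) = 0`, or the types tend to
infinity, and `ε (u) = 0`. By Baire's theorem there is a vector `u` with `g m (u) ≠ 0` and
`ε (u) ≠ 0`. In the blocks of type `m` we can reach all vectors in the kernel of `g m` up to
multiples of vectors like `z k` as `h k (z k)` tends to `1`, and each vector is near such kernels.
-/

set_option autoImplicit false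

open Filter Topology
open scoped ENNReal ZeroAtInfty

namespace Pool.Agent.Results.MP_faea85_an.Hierarchy

section defs

variable (𝕜 : Type) [RCLike 𝕜] {X : Type} [NormedAddCommGroup X] [NormedSpace 𝕜 X]

/-- `T` is hypercyclic: some orbit is dense in the norm topology. -/
def IsHypercyclic (T : X →L[𝕜] X) : Prop :=
  ∃ x : X, Dense (Set.range fun n : ℕ => (T ^ n) x)

/-- The sequence `u` converges weakly to `y`. -/
def WeaklyTendsto (u : ℕ → X) (y : X) : Prop :=
  ∀ φ : X →L[𝕜] 𝕜, Tendsto (fun k => φ (u k)) atTop (𝓝 (φ y))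

/-- `M` contains the limit of every weakly convergent sequence of its elements. -/
def IsWeaklySeqClosed (M : Set X) : Prop :=
  ∀ (u : ℕ → X) (y : X), (∀ k, u k ∈ M) → WeaklyTendsto 𝕜 u y → y ∈ M

/-- `T` is weakly sequentially hypercyclic: for some orbit, the smallest weakly sequentially
closed set containing it is the whole space. -/
def IsWeaklySequentiallyHypercyclic (T : X →L[𝕜] X) : Prop :=
  ∃ x : X, ∀ M : Set X, IsWeaklySeqClosed 𝕜 M → (Set.range fun n : ℕ => (T ^ n) x) ⊆ M →
    M = Set.univ

/-- The weak limits of the sequences in the orbit of `x`. -/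
def orbitLimits (T : X →L[𝕜] X) (x : X) : Set X :=
  {y | ∃ n : ℕ → ℕ, WeaklyTendsto 𝕜 (fun k => (T ^ n k) x) y}

/-- `T` is weakly 1-sequentially hypercyclic: every vector is the weak limit of a sequence in the
orbit of the same vector `x`. -/
def IsWeaklyOneSequentiallyHypercyclic (T : X →L[𝕜] X) : Prop :=
  ∃ x : X, orbitLimits 𝕜 T x = Set.univ

/-- `Y` is isomorphic to a complemented subspace of `X`. -/
def ComplementedIn (Y X : Type) [NormedAddCommGroup Y] [NormedSpace 𝕜 Y] [NormedAddCommGroup X]
    [NormedSpace 𝕜 X] : Prop :=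
  ∃ (i : Y →L[𝕜] X) (r : X →L[𝕜] Y), ∀ y, r (i y) = y

/-- The Schur property. -/
def Schur (X : Type) [NormedAddCommGroup X] [NormedSpace 𝕜 X] : Prop :=
  ∀ (u : ℕ → X) (y : X), WeaklyTendsto 𝕜 u y → Tendsto u atTop (𝓝 y)

/-- There is a weakly 1-sequentially hypercyclic operator which is not hypercyclic, and there is a
weakly sequentially hypercyclic operator which is not weakly 1-sequentially hypercyclic, such that
the weak limits of the sequences in some orbit are norm dense. -/
def Separated (X : Type) [NormedAddCommGroup X] [NormedSpace 𝕜 X] : Prop :=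
  (∃ T : X →L[𝕜] X, IsWeaklySequentiallyHypercyclic 𝕜 T ∧
    IsWeaklyOneSequentiallyHypercyclic 𝕜 T ∧ ¬ IsHypercyclic 𝕜 T) ∧
  ∃ T : X →L[𝕜] X, IsWeaklySequentiallyHypercyclic 𝕜 T ∧ (∃ x, Dense (orbitLimits 𝕜 T x)) ∧
    ¬ IsWeaklyOneSequentiallyHypercyclic 𝕜 T ∧ ¬ IsHypercyclic 𝕜 T

end defs

section basic

variable {𝕜 : Type} [RCLike 𝕜] {X : Type} [NormedAddCommGroup X] [NormedSpace 𝕜 X]

lemma seq_of_dense {T : X →L[𝕜] X} {x : X} (h : Dense (orbitLimits 𝕜 T x)) :
    IsWeaklySequentiallyHypercyclic 𝕜 T := by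
  refine ⟨x, fun M hM hA => Set.eq_univ_of_forall fun y => ?_⟩
  obtain ⟨v, hv, hvy⟩ := mem_closure_iff_seq_limit.1 (h y)
  refine hM v y (fun k => ?_) fun φ => (φ.continuous.tendsto _).comp hvy
  obtain ⟨n, hn⟩ := hv k
  exact hM (fun j => (T ^ n j) x) (v k) (fun j => hA ⟨n j, rfl⟩) hn

lemma one_of_hypercyclic {T : X →L[𝕜] X} (h : IsHypercyclic 𝕜 T) :
    IsWeaklyOneSequentiallyHypercyclic 𝕜 T := by
  obtain ⟨x, hx⟩ := h
  refine ⟨x, Set.eq_univ_of_forall fun y => ?_⟩
  obtain ⟨v, hv, hvy⟩ := mem_closure_iff_seq_limit.1 (hx y)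
  choose n hn using hv
  refine ⟨n, fun φ => ?_⟩
  refine ((φ.continuous.tendsto _).comp hvy).congr fun k => ?_
  show φ (v k) = φ ((T ^ n k) x)
  rw [← hn k]

lemma separated_of_found (h : Pool.Agent.Y609.WS.Found 𝕜 X)
    (h2 : Pool.Agent.Y609.WS.Found2 𝕜 X) : Separated 𝕜 X := by
  constructor
  · obtain ⟨T, ⟨x, hx⟩, hn⟩ := h
    have h1 : orbitLimits 𝕜 T x = Set.univ := Set.eq_univ_of_forall fun y => by
      obtain ⟨n, -, hn'⟩ := hx y
      exact ⟨n, hn'⟩
    refine ⟨T, seq_of_dense (x := x) (by rw [h1]; exact dense_univ), ⟨x, h1⟩,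
      fun ⟨x', hx'⟩ => hn x' hx'⟩
  · obtain ⟨T, ⟨x, hx⟩, hn⟩ := h2
    have h1 : ¬ IsWeaklyOneSequentiallyHypercyclic 𝕜 T := by
      rintro ⟨x', hx'⟩
      apply hn x'
      intro y
      have : y ∈ orbitLimits 𝕜 T x' := by rw [hx']; trivial
      exact this
    exact ⟨T, seq_of_dense hx, ⟨x, hx⟩, h1, fun h3 => h1 (one_of_hypercyclic h3)⟩

end basic

/-- `Y` is isomorphic to a closed subspace of `X`. -/
def EmbedsIn (𝕜 : Type) [RCLike 𝕜] (Y X : Type) [NormedAddCommGroup Y] [NormedSpace 𝕜 Y]
    [NormedAddCommGroup X] [NormedSpace 𝕜 X] : Prop :=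
  ∃ (i : Y →L[𝕜] X) (δ : ℝ), 0 < δ ∧ ∀ y, δ * ‖y‖ ≤ ‖i y‖

/-- Let `X` be a separable Banach space. There are a weakly 1-sequentially hypercyclic operator
which is not hypercyclic and a weakly sequentially hypercyclic operator which is not weakly
1-sequentially hypercyclic on `X` if `X` has a complemented subspace isomorphic to an `ℓ_p`-sum or
`c_0`-sum of infinitely many copies of a Banach space without the Schur property, or to `ℓ_p` for
some `1 < p < ∞`, or if `X` contains a copy of `c_0`. There is none if `X` has the Schur property.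
If `X` is isomorphic to such a sum of copies of itself then each of the two kinds of operators
exists on `X` if and only if `X` does not have the Schur property. -/
theorem result (𝕜 : Type) [RCLike 𝕜] (X : Type) [NormedAddCommGroup X] [NormedSpace 𝕜 X]
    [CompleteSpace X] [TopologicalSpace.SeparableSpace X] :
    ((∃ (H : Type) (_ : NormedAddCommGroup H) (_ : NormedSpace 𝕜 H) (_ : CompleteSpace H),
        ¬ Schur 𝕜 H ∧
        ((∃ (p : ℝ≥0∞) (_ : Fact (1 ≤ p)), p ≠ ∞ ∧
            ComplementedIn 𝕜 (lp (fun _ : ℕ => H) p) X) ∨ ComplementedIn 𝕜 C₀(ℕ, H) X)) →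
      Separated 𝕜 X) ∧
    ((∃ (p : ℝ≥0∞) (_ : Fact (1 ≤ p)), 1 < p ∧ p ≠ ∞ ∧
        ComplementedIn 𝕜 (lp (fun _ : ℕ => 𝕜) p) X) → Separated 𝕜 X) ∧
    (EmbedsIn 𝕜 C₀(ℕ, 𝕜) X → Separated 𝕜 X) ∧
    (Schur 𝕜 X → ∀ T : X →L[𝕜] X, IsWeaklySequentiallyHypercyclic 𝕜 T → IsHypercyclic 𝕜 T) ∧
    (((∃ (p : ℝ≥0∞) (_ : Fact (1 ≤ p)), p ≠ ∞ ∧ Nonempty (X ≃L[𝕜] lp (fun _ : ℕ => X) p)) ∨
        Nonempty (X ≃L[𝕜] C₀(ℕ, X))) →
      ((∃ T : X →L[𝕜] X, IsWeaklyOneSequentiallyHypercyclic 𝕜 T ∧ ¬ IsHypercyclic 𝕜 T) ↔
        ¬ Schur 𝕜 X) ∧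
      ((∃ T : X →L[𝕜] X, IsWeaklySequentiallyHypercyclic 𝕜 T ∧
        ¬ IsWeaklyOneSequentiallyHypercyclic 𝕜 T) ↔ ¬ Schur 𝕜 X)) := by
  have h1 : (∃ (H : Type) (_ : NormedAddCommGroup H) (_ : NormedSpace 𝕜 H) (_ : CompleteSpace H),
        ¬ Schur 𝕜 H ∧
        ((∃ (p : ℝ≥0∞) (_ : Fact (1 ≤ p)), p ≠ ∞ ∧
            ComplementedIn 𝕜 (lp (fun _ : ℕ => H) p) X) ∨ ComplementedIn 𝕜 C₀(ℕ, H) X)) →
      Separated 𝕜 X := by
    rintro ⟨H, _, _, _, hH, h⟩
    unfold Schur at hH
    push Not at hH
    obtain ⟨u, v, hw, hn⟩ := hH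
    rcases h with ⟨p, hp1, hp, hc⟩ | hc
    · exact separated_of_found
        (Pool.Agent.Y609.WS.found_of_sum (Pool.Agent.Y609.WS.lpSum hp) hc u v hw hn)
        (Pool.Agent.Y609.WS.found2_of_sum (Pool.Agent.Y609.WS.lpSum hp) hc u v hw hn)
    · exact separated_of_found
        (Pool.Agent.Y609.WS.found_of_sum (Pool.Agent.Y609.WS.c0Sum 𝕜 H) hc u v hw hn)
        (Pool.Agent.Y609.WS.found2_of_sum (Pool.Agent.Y609.WS.c0Sum 𝕜 H) hc u v hw hn)
  have h4 : Schur 𝕜 X → ∀ T : X →L[𝕜] X, IsWeaklySequentiallyHypercyclic 𝕜 T →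
      IsHypercyclic 𝕜 T := by
    rintro hS T ⟨x, hx⟩
    refine ⟨x, ?_⟩
    rw [dense_iff_closure_eq]
    apply hx _ _ subset_closure
    intro u y hu hy
    exact isClosed_closure.mem_of_tendsto (hS u y hy) (Eventually.of_forall hu)
  have h5 : ((∃ (p : ℝ≥0∞) (_ : Fact (1 ≤ p)), p ≠ ∞ ∧ Nonempty (X ≃L[𝕜] lp (fun _ : ℕ => X) p)) ∨
        Nonempty (X ≃L[𝕜] C₀(ℕ, X))) → ¬ Schur 𝕜 X → Separated 𝕜 X := by
    intro h hS
    apply h1
    refine ⟨X, inferInstance, inferInstance, inferInstance, hS, ?_⟩
    rcases h with ⟨p, hp1, hp, ⟨e⟩⟩ | h'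
    · exact Or.inl ⟨p, hp1, hp, e.symm, e, fun y => e.apply_symm_apply y⟩
    · obtain ⟨e⟩ := h'
      exact Or.inr ⟨e.symm, e, fun y => e.apply_symm_apply y⟩
  refine ⟨h1, ?_, ?_, h4, fun h => ⟨⟨?_, fun hS => ?_⟩, ⟨?_, fun hS => ?_⟩⟩⟩
  · rintro ⟨p, hp1, h1, hp, hc⟩
    exact separated_of_found (Pool.Agent.Y609.WS.found_lp h1 hp hc)
      (Pool.Agent.Y609.WS.found2_lp h1 hp hc)
  · rintro ⟨i, δ, hδ, hi⟩
    have hc := Pool.Agent.Y609.WS.sobczyk i hδ hi
    exact separated_of_found (Pool.Agent.Y609.WS.found_c0 hc) (Pool.Agent.Y609.WS.found2_c0 hc)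
  · rintro ⟨T, ⟨x, hT⟩, hn⟩ hS
    refine hn (h4 hS T (seq_of_dense (x := x) ?_))
    rw [hT]
    exact dense_univ
  · obtain ⟨⟨T, -, hT1, hT2⟩, -⟩ := h5 h hS
    exact ⟨T, hT1, hT2⟩
  · rintro ⟨T, hT, hn⟩ hS
    exact hn (one_of_hypercyclic (h4 hS T hT))
  · obtain ⟨-, ⟨T, hT1, -, hT2, -⟩⟩ := h5 h hS
    exact ⟨T, hT1, hT2⟩

end Pool.Agent.Results.MP_faea85_an.Hierarchy
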